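import Pool.Agent.helper16.EXC.Spec3

/-!
# ZAD: a collinear pair spans root groups
-/

set_option autoImplicit false

open Finset

namespace Pool.Agent.EXC

/-- ZAD -/
theorem ZAD (hEXF : EXF_stmt) (hACT : ACT_stmt) (hCOL : COL_stmt) (hXAU : XAU_stmt) (hNBR : NBR_stmt) : ZAD_stmt := by
  intro n C _ F _ j0 θ δ hE a b hT u v huv
  obtain ⟨k, hk, β, hβ, hm, c, c', hc, hc', hka, hkb⟩ := hT
  have hθ : ip C θ θ = 2 := hE.th2
  have hnb := (hNBR n C j0 θ δ hE).1
  obtain ⟨hAu, hExE, hEx, -⟩ := hEXF n C F hnb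
  have hkinv : k⁻¹ ∈ GE C F := (GE C F).inv_mem hk
  have hback : ∀ x, Ex C (k x) → Ex C x := by
    intro x hx
    have h1 := (hEx (k x) hx).2.2.1 k⁻¹ hkinv
    have h2 : (k⁻¹ : Lm C F ≃ₗ[F] Lm C F) (k x) = x := k.symm_apply_apply x
    rwa [h2] at h1
  have hkuv : k (u • a + v • b) = (u * c) • (E C θ : Lm C F) + (v * c') • E C β := by
    rw [map_add, map_smul, map_smul, hka, hkb, smul_smul, smul_smul]
  have hEa : Ex C a := hback a (hka ▸ (hEx _ (hExE θ hθ)).2.2.2.1 c hc)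
  have hEb : Ex C b := hback b (hkb ▸ (hEx _ (hExE β hβ)).2.2.2.1 c' hc')
  have hExuv : Ex C (u • a + v • b) := by
    apply hback
    rw [hkuv]
    by_cases hv : v = 0
    · subst hv
      have hu : u ≠ 0 := by
        rcases huv with h | h
        · exact h
        · exact absurd rfl h
      rw [zero_mul, zero_smul, add_zero]
      exact (hEx _ (hExE θ hθ)).2.2.2.1 _ (mul_ne_zero hu hc)
    by_cases hu : u = 0
    · subst hu
      rw [zero_mul, zero_smul, zero_add]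
      exact (hEx _ (hExE β hβ)).2.2.2.1 _ (mul_ne_zero hv hc')
    have hγ : ip C (θ - β) (θ - β) = 2 := (sub_root_iff hθ hβ).2 hm
    have hγβ : ip C (θ - β) β = -1 := by
      rw [ip_sub_left, hm, hβ]
      norm_num
    have hvc : v * c' ≠ 0 := mul_ne_zero hv hc'
    obtain ⟨g, hg, hgX⟩ := (hEx _ (hExE (θ - β) hγ)).2.2.2.2.1 ((u * c) * (sg C (θ - β) β : F) / (v * c'))
    have h1 := (hACT n C F (θ - β) ((u * c) * (sg C (θ - β) β : F) / (v * c')) hγ).2.1 β hβ hγβ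
    rw [sub_add_cancel] at h1
    have h2 : (u * c) • (E C θ : Lm C F) + (v * c') • E C β = (v * c') • g (E C β) := by
      rw [hgX, h1, smul_add, smul_smul, add_comm]
      congr 2
      have h3 := sg_sq (F := F) C (θ - β) β
      field_simp
      rw [pow_two, h3]
    rw [h2]
    exact (hEx _ ((hEx _ (hExE β hβ)).2.2.1 g hg)).2.2.2.1 _ hvc
  refine ⟨hExuv, ?_⟩
  intro g h hg hh w
  have hkA := hAu k hk
  have hXa := (hEx a hEa).1
  have hXb := (hEx b hEb).1
  have hXuv := (hEx _ hExuv).1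
  have hXθ := (hEx _ (hExE θ hθ)).1
  have hXβ := (hEx _ (hExE β hβ)).1
  apply k.injective
  have e1 : (g * h) w = g (h w) := rfl
  rw [e1, hh w, hg _, ((hXAU n C F a hXa).2.2.1 k hkA).2, ((hXAU n C F b hXb).2.2.1 k hkA).2,
    ((hXAU n C F _ hXuv).2.2.1 k hkA).2, hkuv, hka, hkb, ((hXAU n C F _ hXθ).2.2.2 c).2, ((hXAU n C F _ hXβ).2.2.2 c').2,
    ((hCOL n C F θ β hθ hβ).1 hm).1, mul_one, mul_one, mul_comm c u, mul_comm c' v]

end Pool.Agent.EXC
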